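import Mathlib

/-!
# MP_b944bf_lc: every deterministic ordinal matching mechanism has unbounded max-distortion

For every deterministic mechanism `f` and every `s`, the max-distortion of `f` on `n` agents is at
least `2 * s + 1` as soon as `n ≥ (s + 1) * 2 ^ (s + 1)`; so `dist_f(n) = Ω(log n)`, and no
mechanism has constant max-distortion.

One profile on `n` agents `0, …, n - 1` and `n` items `0, …, n - 1` (the last item is called `v`)
defeats all matchings.  Agents and the items other than `v` stand alternately on a path, agent `j`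
between the items `j - 1` and `j`.  There are two consistent pseudometrics: in one the left end of
the path (agent `0`) is next to `v`, in the other the right end (agent `n - 1`) is; the distance of
agent `j` to `v` grows like `1 + 2 * log₂ (j / s)` with the distance `j` to the end of the path
that is next to `v`, up to the cap `2 * s + 1`.  Both pseudometrics have `OPT ≤ 1`, and every agent
is far from at least one end, so whoever gets `v` is badly off in one of the two.
-/

set_option autoImplicit false

namespace Pool.Agent.Results.MP_b944bf_lc.Unbounded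

open Finset

/-! ## Definitions -/

/-- A ranking of the `n` items: a strict total order. -/
structure Ranking (n : ℕ) where
  /-- `prefers b b'` says that `b` is ranked above `b'`. -/
  prefers : Fin n → Fin n → Prop
  /-- the relation is a strict total order -/
  strict_total : IsStrictTotalOrder (Fin n) prefers

/-- Pseudometrics on agents (`Sum.inl`) and items (`Sum.inr`). -/
def IsPseudometric {n : ℕ} (d : Fin n ⊕ Fin n → Fin n ⊕ Fin n → ℝ) : Prop :=
  (∀ x y, 0 ≤ d x y) ∧ (∀ x, d x x = 0) ∧ (∀ x y, d x y = d y x) ∧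
    ∀ x y z, d x z ≤ d x y + d y z

/-- The pseudometric `d` is consistent with the profile `σ`. -/
def Consistent {n : ℕ} (σ : Fin n → Ranking n) (d : Fin n ⊕ Fin n → Fin n ⊕ Fin n → ℝ) : Prop :=
  ∀ a b b', (σ a).prefers b b' → d (Sum.inl a) (Sum.inr b) ≤ d (Sum.inl a) (Sum.inr b')

/-- The max-cost of the perfect matching `M` (agent `a` gets item `M a`). -/
noncomputable def cost {n : ℕ} (d : Fin n ⊕ Fin n → Fin n ⊕ Fin n → ℝ)
    (M : Equiv.Perm (Fin n)) : ℝ :=
  ⨆ a, d (Sum.inl a) (Sum.inr (M a))

/-- The least max-cost of a perfect matching. -/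
noncomputable def opt {n : ℕ} (d : Fin n ⊕ Fin n → Fin n ⊕ Fin n → ℝ) : ℝ :=
  ⨅ M : Equiv.Perm (Fin n), cost d M

/-- A deterministic matching mechanism: for each `n` it maps a profile to a perfect matching. -/
abbrev Mechanism : Type := ∀ n : ℕ, (Fin n → Ranking n) → Equiv.Perm (Fin n)

/-- `dist_f(n) ≤ α`: on all profiles with `n` agents and all consistent pseudometrics the
max-cost of the matching chosen by `f` is at most `α` times the least max-cost. -/
def DistortionLE (f : Mechanism) (n : ℕ) (α : ℝ) : Prop :=
  ∀ (σ : Fin n → Ranking n) (d : Fin n ⊕ Fin n → Fin n ⊕ Fin n → ℝ),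
    IsPseudometric d → Consistent σ d → cost d (f n σ) ≤ α * opt d

/-! ## The distance to `v` -/

/-- Distance of the agent at position `p` to `v`. -/
def lam (s p : ℕ) : ℕ := min (2 * s + 1) (1 + 2 * Nat.log 2 ((p + 1) / (s + 1)))

/-- Agent `j` and item `i` are joined by the path of length `2 * ee j i + 1`. -/
def ee (j i : ℕ) : ℕ := if i < j then j - 1 - i else i - j

/-- the cap of the distance between agent `j` and item `i` -/
def LL (s j i : ℕ) : ℕ := if i ≤ 2 * j then lam s j else lam s i

/-- Distance of agent `j` and item `i` (not `v`). -/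
def FF (s j i : ℕ) : ℕ := min (2 * ee j i + 1) (LL s j i)

theorem lam_pos (s p : ℕ) : 1 ≤ lam s p := by unfold lam; omega

theorem lam_le (s p : ℕ) : lam s p ≤ 2 * s + 1 := min_le_left _ _

theorem lam_mono (s : ℕ) {p q : ℕ} (h : p ≤ q) : lam s p ≤ lam s q := by
  unfold lam
  have : Nat.log 2 ((p + 1) / (s + 1)) ≤ Nat.log 2 ((q + 1) / (s + 1)) :=
    Nat.log_mono_right (Nat.div_le_div_right (by omega))
  omega

theorem log_two_mul_succ (x : ℕ) : Nat.log 2 (2 * x + 1) ≤ Nat.log 2 x + 1 := by
  rcases Nat.eq_zero_or_pos x with rfl | h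
  · simp
  · have h1 : Nat.log 2 (2 * x + 1) = Nat.log 2 ((2 * x + 1) / 2) + 1 :=
      Nat.log_of_one_lt_of_le (by norm_num) (by omega)
    rw [h1]
    have h2 : (2 * x + 1) / 2 = x := by omega
    rw [h2]

theorem lam_dbl (s : ℕ) {p q : ℕ} (h : q ≤ 2 * p + 1) : lam s q ≤ lam s p + 2 := by
  have h1 : (q + 1) / (s + 1) ≤ 2 * ((p + 1) / (s + 1)) + 1 := by
    have h3 : (q + 1) / (s + 1) < 2 * ((p + 1) / (s + 1)) + 2 := by
      rw [Nat.div_lt_iff_lt_mul (by omega)]
      have h4 := Nat.lt_div_mul_add (a := p + 1) (b := s + 1) (by omega)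
      nlinarith
    omega
  have h2 : Nat.log 2 ((q + 1) / (s + 1)) ≤ Nat.log 2 ((p + 1) / (s + 1)) + 1 :=
    (Nat.log_mono_right h1).trans (log_two_mul_succ _)
  unfold lam
  omega

theorem lam_lip (s p q : ℕ) : lam s q ≤ lam s p + 2 * (q - p) := by
  rcases Nat.le_total q p with h | h
  · have := lam_mono s h
    omega
  · obtain ⟨k, rfl⟩ := Nat.exists_eq_add_of_le h
    have : ∀ k, lam s (p + k) ≤ lam s p + 2 * k := by
      intro k
      induction k with
      | zero => simp
      | succ k ih =>
        have := lam_dbl s (p := p + k) (q := p + (k + 1)) (by omega)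
        omega
    have := this k
    omega

theorem lam_dbl' (s p q : ℕ) : lam s q ≤ lam s p + 2 + 2 * (q - (2 * p + 1)) := by
  have h1 := lam_lip s (2 * p + 1) q
  have h2 := lam_dbl s (p := p) (q := 2 * p + 1) le_rfl
  omega

theorem lam_zero (s : ℕ) : lam s 0 = 1 := by
  unfold lam
  have h : (0 + 1) / (s + 1) ≤ 1 := Nat.div_le_of_le_mul (by omega)
  have h2 : Nat.log 2 ((0 + 1) / (s + 1)) = 0 := by
    apply Nat.log_of_lt
    omega
  rw [h2]
  omega

theorem lam_small (s : ℕ) {p : ℕ} (h : p ≤ 2 * s) : lam s p = 1 := by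
  unfold lam
  have h1 : (p + 1) / (s + 1) < 2 := by
    rw [Nat.div_lt_iff_lt_mul (by omega)]
    omega
  have h2 : Nat.log 2 ((p + 1) / (s + 1)) = 0 := Nat.log_of_lt h1
  rw [h2]
  omega

theorem lam_large (s : ℕ) {p : ℕ} (h : (s + 1) * 2 ^ s ≤ p + 1) : lam s p = 2 * s + 1 := by
  unfold lam
  have h1 : 2 ^ s ≤ (p + 1) / (s + 1) := by
    rw [Nat.le_div_iff_mul_le (by omega)]
    rw [mul_comm]
    exact h
  have h2 : s ≤ Nat.log 2 ((p + 1) / (s + 1)) := by
    have h3 : Nat.log 2 (2 ^ s) ≤ Nat.log 2 ((p + 1) / (s + 1)) := Nat.log_mono_right h1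
    rwa [Nat.log_pow (by norm_num)] at h3
  omega

/-! ## Quadrilateral inequalities -/

theorem quad (s j j' i i' : ℕ) :
    FF s j i ≤ FF s j i' + FF s j' i' + FF s j' i := by
  have a1 := lam_pos s j
  have a2 := lam_pos s j'
  have a3 := lam_pos s i
  have a4 := lam_pos s i'
  have b1 := lam_lip s j' i
  have b2 := lam_lip s j' j
  have b3 := lam_lip s i' i
  have b4 := lam_lip s i' j
  have b5 := lam_lip s j i
  have b6 := lam_lip s i j
  have c1 := lam_dbl' s j i
  have c2 := lam_dbl' s j' i
  have c3 := lam_dbl' s j' j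
  unfold FF LL ee
  generalize lam s j = x at *
  generalize lam s j' = x' at *
  generalize lam s i = y at *
  generalize lam s i' = y' at *
  split_ifs <;> omega

theorem quad_v (s j j' i : ℕ) : FF s j i ≤ lam s j + lam s j' + FF s j' i := by
  have a1 := lam_pos s j
  have a2 := lam_pos s j'
  have a3 := lam_pos s i
  have b1 := lam_lip s j' i
  have b2 := lam_lip s j' j
  have b5 := lam_lip s j i
  have b6 := lam_lip s i j
  have c1 := lam_dbl' s j i
  have c2 := lam_dbl' s j' i
  have c3 := lam_dbl' s j' j
  unfold FF LL ee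
  generalize lam s j = x at *
  generalize lam s j' = x' at *
  generalize lam s i = y at *
  split_ifs <;> omega

theorem quad_w (s j j' i : ℕ) : lam s j ≤ FF s j i + FF s j' i + lam s j' := by
  have a1 := lam_pos s j
  have a2 := lam_pos s j'
  have a3 := lam_pos s i
  have b1 := lam_lip s j' i
  have b2 := lam_lip s j' j
  have b5 := lam_lip s j i
  have b6 := lam_lip s i j
  have c1 := lam_dbl' s j i
  have c2 := lam_dbl' s j' i
  have c3 := lam_dbl' s j' j
  unfold FF LL ee
  generalize lam s j = x at *
  generalize lam s j' = x' at *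
  generalize lam s i = y at *
  split_ifs <;> omega

/-- Distance of agent `j` to an item (`none` is `v`). -/
def GG (s j : ℕ) : Option ℕ → ℕ
  | none => lam s j
  | some i => FF s j i

theorem GG_quad (s j j' : ℕ) (b b' : Option ℕ) :
    GG s j b ≤ GG s j b' + GG s j' b' + GG s j' b := by
  cases b with
  | none =>
    cases b' with
    | none => simp only [GG]; omega
    | some i => exact quad_w s j j' i
  | some i =>
    cases b' with
    | none => exact quad_v s j j' i
    | some i' => exact quad s j j' i i'

/-- The level of an item in the ranking of agent `j`. -/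
def lev (s j : ℕ) : Option ℕ → ℕ
  | none => s
  | some i => if ee j i < s then ee j i else ee j i + 1

/-- The side of an item. -/
def side (j : ℕ) : Option ℕ → ℕ
  | none => 0
  | some i => if i < j then 0 else 1

theorem GG_lev (s j : ℕ) (b b' : Option ℕ) (h : lev s j b ≤ lev s j b') :
    GG s j b ≤ GG s j b' := by
  have key1 : ∀ i, ee j i < s → FF s j i ≤ lam s j := by
    intro i hi
    unfold FF LL
    split_ifs with h1
    · exact min_le_right _ _
    · have h2 : i ≤ 2 * s := by
        unfold ee at hi
        split_ifs at hi <;> omega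
      rw [lam_small s h2]
      exact (min_le_right _ _).trans (lam_pos s j)
  have key2 : ∀ i, s ≤ ee j i → lam s j ≤ FF s j i := by
    intro i hi
    unfold FF LL
    have := lam_le s j
    split_ifs with h1
    · omega
    · have := lam_mono s (p := j) (q := i) (by omega)
      omega
  have key3 : ∀ i i', ee j i ≤ ee j i' → FF s j i ≤ FF s j i' := by
    intro i i' hi
    unfold FF LL
    split_ifs with h1 h2 h2
    · omega
    · have := lam_mono s (p := j) (q := i') (by omega)
      omega
    · exfalso
      unfold ee at hi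
      split_ifs at hi <;> omega
    · have h3 : i ≤ i' := by
        unfold ee at hi
        split_ifs at hi <;> omega
      have := lam_mono s h3
      omega
  cases b with
  | none =>
    cases b' with
    | none => exact le_rfl
    | some i =>
      simp only [lev] at h
      simp only [GG]
      apply key2
      split_ifs at h <;> omega
  | some i =>
    cases b' with
    | none =>
      simp only [lev] at h
      simp only [GG]
      apply key1
      split_ifs at h <;> omega
    | some i' =>
      simp only [lev] at h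
      simp only [GG]
      apply key3
      split_ifs at h <;> omega

/-! ## Pseudometrics from matrices with the quadrilateral inequality -/

/-- The pseudometric on agents and items given by an agent-item matrix. -/
noncomputable def ext {n : ℕ} (g : Fin n → Fin n → ℝ) : Fin n ⊕ Fin n → Fin n ⊕ Fin n → ℝ
  | Sum.inl a, Sum.inl a' => dist (g a) (g a')
  | Sum.inr b, Sum.inr b' => dist (fun a => g a b) (fun a => g a b')
  | Sum.inl a, Sum.inr b => g a b
  | Sum.inr b, Sum.inl a => g a b

theorem ext_pseudo {n : ℕ} (g : Fin n → Fin n → ℝ) (h0 : ∀ a b, 0 ≤ g a b)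
    (hq : ∀ a a' b b', g a b ≤ g a b' + g a' b' + g a' b) : IsPseudometric (ext g) := by
  refine ⟨?_, ?_, ?_, ?_⟩
  · rintro (a | b) (a' | b')
    · exact dist_nonneg
    · exact h0 _ _
    · exact h0 _ _
    · exact dist_nonneg
  · rintro (a | b)
    · exact dist_self _
    · exact dist_self _
  · rintro (a | b) (a' | b')
    · exact dist_comm _ _
    · rfl
    · rfl
    · exact dist_comm _ _
  · rintro (a | a) (b | b) (c | c)
    · exact dist_triangle _ _ _
    · -- a b c : agent, agent, item
      have h1 : dist (g a c) (g b c) ≤ dist (g a) (g b) := dist_le_pi_dist (g a) (g b) c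
      rw [Real.dist_eq] at h1
      have h2 := le_abs_self (g a c - g b c)
      change g a c ≤ dist (g a) (g b) + g b c
      linarith
    · -- agent, item, agent
      change dist (g a) (g c) ≤ g a b + g c b
      rw [dist_pi_le_iff (add_nonneg (h0 _ _) (h0 _ _))]
      intro k
      rw [Real.dist_eq, abs_le]
      have h1 := hq a c k b
      have h2 := hq c a k b
      constructor <;> linarith
    · -- agent, item, item
      have h1 : dist (g a b) (g a c) ≤ dist (fun a => g a b) (fun a => g a c) :=
        dist_le_pi_dist (fun a => g a b) (fun a => g a c) a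
      rw [Real.dist_eq] at h1
      have h2 := neg_abs_le (g a b - g a c)
      change g a c ≤ g a b + dist (fun a => g a b) (fun a => g a c)
      linarith
    · -- item a, agent b, agent c
      have h1 : dist (g b a) (g c a) ≤ dist (g b) (g c) := dist_le_pi_dist (g b) (g c) a
      rw [Real.dist_eq] at h1
      have h2 := neg_abs_le (g b a - g c a)
      change g c a ≤ g b a + dist (g b) (g c)
      linarith
    · -- item a, agent b, item c
      change dist (fun x => g x a) (fun x => g x c) ≤ g b a + g b c
      rw [dist_pi_le_iff (add_nonneg (h0 _ _) (h0 _ _))]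
      intro k
      rw [Real.dist_eq, abs_le]
      have h1 := hq k b a c
      have h2 := hq k b c a
      constructor <;> linarith
    · -- item a, item b, agent c
      have h1 : dist (g c a) (g c b) ≤ dist (fun x => g x a) (fun x => g x b) :=
        dist_le_pi_dist (fun x => g x a) (fun x => g x b) c
      rw [Real.dist_eq] at h1
      have h2 := le_abs_self (g c a - g c b)
      change g c a ≤ dist (fun x => g x a) (fun x => g x b) + g c b
      linarith
    · exact dist_triangle _ _ _

/-! ## The profile -/

/-- The code of an item in the first pseudometric. -/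
def code (n : ℕ) (k : Fin n) : Option ℕ := if k.val = n - 1 then none else some k.val

/-- The code of an item in the second pseudometric (the path is reversed). -/
def codeR (n : ℕ) (k : Fin n) : Option ℕ := if k.val = n - 1 then none else some (n - 2 - k.val)

/-- The key by which agent `j` ranks the items. -/
def key (s n : ℕ) (j k : Fin n) : ℕ := 2 * lev s j.val (code n k) + side j.val (code n k)

theorem side_le (j : ℕ) (b : Option ℕ) : side j b ≤ 1 := by
  cases b with
  | none => simp [side]
  | some i => simp only [side]; split_ifs <;> omega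

theorem key_inj (s n : ℕ) (j k k' : Fin n) (h : key s n j k = key s n j k') : k = k' := by
  have hk := k.isLt
  have hk' := k'.isLt
  unfold key code at h
  apply Fin.ext
  split_ifs at h with h1 h2 h2
  · omega
  · exfalso
    simp only [lev, side, ee] at h
    split_ifs at h <;> omega
  · exfalso
    simp only [lev, side, ee] at h
    split_ifs at h <;> omega
  · simp only [lev, side, ee] at h
    split_ifs at h <;> omega

/-- The profile. -/
def prof (s n : ℕ) : Fin n → Ranking n := fun j =>
  { prefers := fun b b' => key s n j b < key s n j b'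
    strict_total :=
      { trichotomous := by
          intro a b h1 h2
          apply key_inj s n j
          omega
        irrefl := fun a => lt_irrefl _
        trans := fun a b c => lt_trans } }

/-- First matrix. -/
noncomputable def gL (s n : ℕ) (j k : Fin n) : ℝ := (GG s j.val (code n k) : ℝ)

/-- Second matrix. -/
noncomputable def gR (s n : ℕ) (j k : Fin n) : ℝ := (GG s (n - 1 - j.val) (codeR n k) : ℝ)

theorem gL_pseudo (s n : ℕ) : IsPseudometric (ext (gL s n)) := by
  apply ext_pseudo
  · intro a b
    exact Nat.cast_nonneg _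
  · intro a a' b b'
    unfold gL
    exact_mod_cast GG_quad s a.val a'.val (code n b) (code n b')

theorem gR_pseudo (s n : ℕ) : IsPseudometric (ext (gR s n)) := by
  apply ext_pseudo
  · intro a b
    exact Nat.cast_nonneg _
  · intro a a' b b'
    unfold gR
    exact_mod_cast GG_quad s (n - 1 - a.val) (n - 1 - a'.val) (codeR n b) (codeR n b')

theorem gL_cons (s n : ℕ) : Consistent (prof s n) (ext (gL s n)) := by
  intro a b b' h
  change key s n a b < key s n a b' at h
  change gL s n a b ≤ gL s n a b'
  unfold gL
  have : GG s a.val (code n b) ≤ GG s a.val (code n b') := by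
    apply GG_lev
    unfold key at h
    have h1 := side_le a.val (code n b)
    have h2 := side_le a.val (code n b')
    omega
  exact_mod_cast this

theorem lev_mirror (s n : ℕ) (a b : Fin n) :
    lev s (n - 1 - a.val) (codeR n b) = lev s a.val (code n b) := by
  have ha := a.isLt
  have hb := b.isLt
  unfold codeR code
  split_ifs with h
  · rfl
  · have he : ee (n - 1 - a.val) (n - 2 - b.val) = ee a.val b.val := by
      unfold ee
      split_ifs <;> omega
    simp only [lev, he]

theorem gR_cons (s n : ℕ) : Consistent (prof s n) (ext (gR s n)) := by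
  intro a b b' h
  change key s n a b < key s n a b' at h
  change gR s n a b ≤ gR s n a b'
  unfold gR
  have : GG s (n - 1 - a.val) (codeR n b) ≤ GG s (n - 1 - a.val) (codeR n b') := by
    apply GG_lev
    rw [lev_mirror, lev_mirror]
    unfold key at h
    have h1 := side_le a.val (code n b)
    have h2 := side_le a.val (code n b')
    omega
  exact_mod_cast this

/-! ## Costs -/

theorem le_cost {n : ℕ} (d : Fin n ⊕ Fin n → Fin n ⊕ Fin n → ℝ) (M : Equiv.Perm (Fin n))
    (a : Fin n) : d (Sum.inl a) (Sum.inr (M a)) ≤ cost d M :=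
  le_ciSup (f := fun a => d (Sum.inl a) (Sum.inr (M a))) (Set.finite_range _).bddAbove a

theorem cost_nonneg {n : ℕ} (d : Fin n ⊕ Fin n → Fin n ⊕ Fin n → ℝ) (hd : IsPseudometric d)
    (M : Equiv.Perm (Fin n)) : 0 ≤ cost d M :=
  Real.iSup_nonneg fun _ => hd.1 _ _

theorem opt_le {n : ℕ} (d : Fin n ⊕ Fin n → Fin n ⊕ Fin n → ℝ) (M : Equiv.Perm (Fin n)) :
    opt d ≤ cost d M :=
  ciInf_le (Set.finite_range _).bddBelow M

theorem opt_nonneg {n : ℕ} (d : Fin n ⊕ Fin n → Fin n ⊕ Fin n → ℝ) (hd : IsPseudometric d) :
    0 ≤ opt d :=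
  Real.iInf_nonneg fun _ => cost_nonneg d hd _

theorem cost_le_one {n : ℕ} (hn : 1 ≤ n) (d : Fin n ⊕ Fin n → Fin n ⊕ Fin n → ℝ)
    (M : Equiv.Perm (Fin n)) (h : ∀ a, d (Sum.inl a) (Sum.inr (M a)) ≤ 1) : cost d M ≤ 1 := by
  have : Nonempty (Fin n) := ⟨⟨0, hn⟩⟩
  exact ciSup_le h

theorem FF_le (s j i : ℕ) : FF s j i ≤ 2 * ee j i + 1 := min_le_left _ _

theorem optL (s n : ℕ) (hn : 1 ≤ n) : opt (ext (gL s n)) ≤ 1 := by
  obtain ⟨m, rfl⟩ : ∃ m, n = m + 1 := ⟨n - 1, by omega⟩
  refine (opt_le _ (finRotate (m + 1)).symm).trans (cost_le_one hn _ _ ?_)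
  intro a
  obtain ⟨k, rfl⟩ := (finRotate (m + 1)).surjective a
  rw [Equiv.symm_apply_apply]
  change gL s (m + 1) _ _ ≤ 1
  unfold gL code
  by_cases hk : k.val = m
  · have hk' : k = Fin.last m := Fin.ext hk
    subst hk'
    rw [finRotate_last]
    simp [GG, lam_zero]
  · have hk2 : k.val < m := by omega
    have h1 : ((finRotate (m + 1)) k).val = k.val + 1 := by
      rw [coe_finRotate_of_ne_last]
      intro h
      exact hk (by rw [h]; rfl)
    rw [h1, if_neg (by omega)]
    have h2 := FF_le s (k.val + 1) k.val
    have h3 : ee (k.val + 1) k.val = 0 := by unfold ee; split_ifs <;> omega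
    rw [h3] at h2
    simp only [GG]
    exact_mod_cast h2

theorem optR (s n : ℕ) (hn : 1 ≤ n) : opt (ext (gR s n)) ≤ 1 := by
  refine (opt_le _ (Equiv.refl _)).trans (cost_le_one hn _ _ ?_)
  intro a
  change gR s n a a ≤ 1
  have ha := a.isLt
  unfold gR codeR
  by_cases hk : a.val = n - 1
  · rw [if_pos hk, hk]
    simp [GG, lam_zero]
  · rw [if_neg hk]
    have h2 := FF_le s (n - 1 - a.val) (n - 2 - a.val)
    have h3 : ee (n - 1 - a.val) (n - 2 - a.val) = 0 := by unfold ee; split_ifs <;> omega
    rw [h3] at h2
    simp only [GG]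
    exact_mod_cast h2

theorem finish {n s : ℕ} {f : Mechanism} {α : ℝ} (h : DistortionLE f n α)
    (g : Fin n → Fin n → ℝ) (hp : IsPseudometric (ext g)) (hc : Consistent (prof s n) (ext g))
    (ho : opt (ext g) ≤ 1) (a : Fin n) (hg : g a (f n (prof s n) a) = 2 * (s : ℝ) + 1) :
    2 * (s : ℝ) + 1 ≤ α := by
  have h1 := h (prof s n) (ext g) hp hc
  have h2 := le_cost (ext g) (f n (prof s n)) a
  change g a (f n (prof s n) a) ≤ _ at h2
  have h3 := opt_nonneg (ext g) hp
  rw [hg] at h2
  have h4 : 2 * (s : ℝ) + 1 ≤ α * opt (ext g) := h2.trans h1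
  have h5 : (0 : ℝ) ≤ s := Nat.cast_nonneg s
  by_contra hlt
  push Not at hlt
  rcases le_or_gt 0 α with hα | hα
  · nlinarith
  · nlinarith

theorem lower (f : Mechanism) (s n : ℕ) (α : ℝ) (hn : (s + 1) * 2 ^ (s + 1) ≤ n)
    (h : DistortionLE f n α) : 2 * (s : ℝ) + 1 ≤ α := by
  have hpow : 1 ≤ 2 ^ s := Nat.one_le_two_pow
  have hpow2 : 2 ^ (s + 1) = 2 * 2 ^ s := by rw [pow_succ]; ring
  have hn1 : 1 ≤ n := by
    have : 1 ≤ (s + 1) * 2 ^ (s + 1) := by
      rw [hpow2]
      nlinarith
    omega
  obtain ⟨a, ha⟩ := (f n (prof s n)).surjective ⟨n - 1, by omega⟩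
  by_cases hcase : (s + 1) * 2 ^ s ≤ a.val + 1
  · refine finish h (gL s n) (gL_pseudo s n) (gL_cons s n) (optL s n hn1) a ?_
    rw [ha]
    unfold gL code
    simp only [if_pos, GG]
    rw [lam_large s hcase]
    push_cast
    ring
  · refine finish h (gR s n) (gR_pseudo s n) (gR_cons s n) (optR s n hn1) a ?_
    rw [ha]
    unfold gR codeR
    simp only [if_pos, GG]
    have hlt := a.isLt
    have h7 : (s + 1) * 2 ^ (s + 1) = 2 * ((s + 1) * 2 ^ s) := by rw [hpow2]; ring
    rw [lam_large s (by omega)]
    push_cast
    ring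

/-- **Every deterministic matching mechanism has unbounded max-distortion.**  For every
deterministic mechanism `f`:
* for all `s` and all `n ≥ (s + 1) * 2 ^ (s + 1)`, `dist_f(n) ≥ 2 * s + 1`;
* there is no constant `C` with `dist_f(n) ≤ C` for all `n ≥ 1`. -/
theorem result (f : Mechanism) :
    (∀ (s n : ℕ) (α : ℝ), (s + 1) * 2 ^ (s + 1) ≤ n → DistortionLE f n α → 2 * (s : ℝ) + 1 ≤ α) ∧
      ¬ ∃ C : ℝ, ∀ n : ℕ, 1 ≤ n → DistortionLE f n C := by
  refine ⟨fun s n α hn h => lower f s n α hn h, ?_⟩
  rintro ⟨C, hC⟩
  obtain ⟨s, hs⟩ := exists_nat_gt C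
  have hpos : 1 ≤ (s + 1) * 2 ^ (s + 1) := Nat.one_le_iff_ne_zero.mpr (by positivity)
  have h1 := lower f s _ C le_rfl (hC _ hpos)
  have h5 : (0 : ℝ) ≤ s := Nat.cast_nonneg s
  linarith

end Pool.Agent.Results.MP_b944bf_lc.Unbounded
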